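import Pool.Agent.TH229.PG.Diag

/-!
# Rigidity: curves with translation invariant kernel are conics
-/

set_option autoImplicit false

namespace Pool.Agent.TH645.PG.Rigid

open Real Filter Topology MeasureTheory Set
open Pool.Agent.TH229.PG

/-- solutions of `g''' = -k² g'` -/
lemma ode {g0 g1 g2 : ℝ → ℝ} {k : ℝ} (hk : k ≠ 0) (h0 : ∀ x, HasDerivAt g0 (g1 x) x)
    (h1 : ∀ x, HasDerivAt g1 (g2 x) x) (h2 : ∀ x, HasDerivAt g2 (-k ^ 2 * g1 x) x) :
    ∃ u v w : ℝ, ∀ x, g0 x = cos (k * x) * u + sin (k * x) * v + w := by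
  have hkx : ∀ x : ℝ, HasDerivAt (fun x => k * x) k x := by
    intro x
    simpa using (hasDerivAt_id x).const_mul k
  have hc : ∀ x : ℝ, HasDerivAt (fun x => cos (k * x)) (-sin (k * x) * k) x := fun x =>
    (hkx x).cos
  have hs : ∀ x : ℝ, HasDerivAt (fun x => sin (k * x)) (cos (k * x) * k) x := fun x =>
    (hkx x).sin
  have hA : ∀ x, cos (k * x) * g1 x - sin (k * x) / k * g2 x = g1 0 := by
    intro x
    have hd : ∀ x, HasDerivAt (fun x => cos (k * x) * g1 x - sin (k * x) / k * g2 x) 0 x := by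
      intro x
      refine (((hc x).mul (h1 x)).sub (((hs x).div_const k).mul (h2 x))).congr_deriv ?_
      field_simp
      ring
    have := is_const_of_deriv_eq_zero (fun y => (hd y).differentiableAt)
      (fun y => (hd y).deriv) x 0
    simpa using this
  have hB : ∀ x, sin (k * x) * g1 x + cos (k * x) / k * g2 x = g2 0 / k := by
    intro x
    have hd : ∀ x, HasDerivAt (fun x => sin (k * x) * g1 x + cos (k * x) / k * g2 x) 0 x := by
      intro x
      refine (((hs x).mul (h1 x)).add (((hc x).div_const k).mul (h2 x))).congr_deriv ?_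
      field_simp
      ring
    have := is_const_of_deriv_eq_zero (fun y => (hd y).differentiableAt)
      (fun y => (hd y).deriv) x 0
    simpa [div_eq_inv_mul] using this
  have hg : ∀ x, g1 x = cos (k * x) * g1 0 + sin (k * x) * (g2 0 / k) := by
    intro x
    rw [← hB x, ← hA x]
    have := sin_sq_add_cos_sq (k * x)
    linear_combination (-g1 x) * this
  refine ⟨-(g2 0 / k) / k, g1 0 / k, g0 0 + (g2 0 / k) / k, fun x => ?_⟩
  have hd : ∀ x, HasDerivAt (fun x => g0 x - (cos (k * x) * (-(g2 0 / k) / k) +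
      sin (k * x) * (g1 0 / k))) 0 x := by
    intro x
    refine ((h0 x).sub (((hc x).mul_const _).add ((hs x).mul_const _))).congr_deriv ?_
    rw [hg x]
    field_simp
    ring
  have := is_const_of_deriv_eq_zero (fun y => (hd y).differentiableAt)
    (fun y => (hd y).deriv) x 0
  simp only [mul_zero, cos_zero, sin_zero, zero_mul, add_zero, one_mul] at this
  have e : -(g2 0 / k) / k = -(g2 0 / k / k) := neg_div _ _
  rw [e] at this ⊢
  linarith

lemma expand {a b c V : Fin 3 → ℝ} (h : dot (crs a b) c = 1) (h0 : dot (crs a b) V = 0)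
    (h1 : dot (crs a c) V = 0) : V = dot (crs b c) V • a := by
  simp only [dot, crs0, crs1, crs2] at h h0 h1
  refine ext3 ?_ ?_ ?_ <;> simp only [dot, crs0, crs1, crs2, Pi.smul_apply, smul_eq_mul]
  · linear_combination (-V 0) * h + c 0 * h0 - b 0 * h1
  · linear_combination (-V 1) * h + c 1 * h0 - b 1 * h1
  · linear_combination (-V 2) * h + c 2 * h0 - b 2 * h1

lemma cot_inj {α β : ℝ} (h1 : 0 < α) (h2 : α < 2 * π) (h3 : 0 < β) (h4 : β < 2 * π)
    (h : sin α * (1 - cos β) = sin β * (1 - cos α)) : α = β := by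
  have ha : 0 < sin (α / 2) := sin_pos_of_pos_of_lt_pi (by linarith) (by linarith)
  have hb : 0 < sin (β / 2) := sin_pos_of_pos_of_lt_pi (by linarith) (by linarith)
  have e1 : sin α = 2 * sin (α / 2) * cos (α / 2) := by
    rw [← sin_two_mul]; congr 1; ring
  have e2 : sin β = 2 * sin (β / 2) * cos (β / 2) := by
    rw [← sin_two_mul]; congr 1; ring
  have e3 : cos α = 1 - 2 * sin (α / 2) ^ 2 := by
    have : cos α = 2 * cos (α / 2) ^ 2 - 1 := by rw [← cos_two_mul]; congr 1; ring
    rw [this, cos_sq']; ring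
  have e4 : cos β = 1 - 2 * sin (β / 2) ^ 2 := by
    have : cos β = 2 * cos (β / 2) ^ 2 - 1 := by rw [← cos_two_mul]; congr 1; ring
    rw [this, cos_sq']; ring
  rw [e1, e2, e3, e4] at h
  have h5 : sin (α / 2 - β / 2) = 0 := by
    rw [sin_sub]
    have h6 : (4 * sin (α / 2) * sin (β / 2)) * (sin (α / 2) * cos (β / 2) -
        cos (α / 2) * sin (β / 2)) = 0 := by linear_combination (-1) * h
    rcases mul_eq_zero.mp h6 with h7 | h7
    · exact absurd h7 (by positivity)
    · exact h7
  have h6 := (sin_eq_zero_iff_of_lt_of_lt (by linarith) (by linarith)).mp h5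
  linarith

/-- a leaf with invariant displacement is a translation -/
lemma leaf_const {T : ℝ} {τ : ℝ → ℝ} (h : Leaf T τ) (hT : 0 < T)
    (hi : ∀ x, τ (τ x) - τ x = τ x - x) : ∃ d, 0 < d ∧ d < T ∧ ∀ x, τ x = x + d := by
  have hit : ∀ (m : ℕ) (x : ℝ), τ^[m] x = x + m * (τ x - x) := by
    intro m
    induction m with
    | zero => intro x; simp
    | succ m ih =>
      intro x
      rw [Function.iterate_succ_apply, ih, hi]
      push_cast
      ring
  have hper : Function.Periodic (fun x => τ x - x) T := by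
    intro x
    simp only [h.per]
    ring
  have hlt : ∀ x y, x < y → y < x + T → τ x - x = τ y - y := by
    intro x y hxy hyx
    have a1 : ∀ m : ℕ, x + m * (τ x - x) < y + m * (τ y - y) := by
      intro m
      rw [← hit, ← hit]
      exact h.mono.iterate m hxy
    have a2 : ∀ m : ℕ, y + m * (τ y - y) < x + T + m * (τ x - x) := by
      intro m
      have := h.mono.iterate m hyx
      rw [hit, hit] at this
      have e : τ (x + T) - (x + T) = τ x - x := hper x
      rwa [e] at this
    by_contra hne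
    rcases lt_or_gt_of_ne hne with hlt | hlt
    · obtain ⟨m, hm⟩ := exists_nat_gt ((x + T - y) / ((τ y - y) - (τ x - x)))
      have hp : 0 < (τ y - y) - (τ x - x) := sub_pos.mpr hlt
      have := (div_lt_iff₀ hp).mp hm
      have := a2 m
      linarith
    · obtain ⟨m, hm⟩ := exists_nat_gt ((y - x) / ((τ x - x) - (τ y - y)))
      have hp : 0 < (τ x - x) - (τ y - y) := sub_pos.mpr hlt
      have := (div_lt_iff₀ hp).mp hm
      have := a1 m
      linarith
  refine ⟨τ 0 - 0, by linarith [h.above 0], by linarith [h.below 0], fun x => ?_⟩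
  have hx : τ x - x = τ 0 - 0 := by
    obtain ⟨y, hy, hxy⟩ := hper.exists_mem_Ico₀ hT x
    rw [hxy]
    rcases hy.1.eq_or_lt with h0 | h0
    · rw [← h0]
    · exact (hlt 0 y h0 (by linarith [hy.2])).symm
  linarith

section
variable {T : ℝ} {G n : ℕ → ℝ → (Fin 3 → ℝ)} (H : Curve T G n)
include H

theorem sumzero (hX : ∀ x x', 0 < |x' - x| → |x' - x| < T → u1 G n x x' + u2 G n x x' = 0)
    {x δ : ℝ} (h : |δ| < T) : Dk G n 1 0 x (x + δ) + Dk G n 0 1 x (x + δ) = 0 := by
  by_cases h0 : δ = 0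
  · subst h0
    rw [add_zero]
    unfold Dk
    rw [r10 H, r01 H, add_zero]
  · have e : x + δ - x = δ := by ring
    have h1 : 0 < |x + δ - x| := by rw [e]; exact abs_pos.mpr h0
    have h2 : |x + δ - x| < T := by rwa [e]
    have h3 := hX x (x + δ) h1 h2
    have h4 := D_pos H h1 h2
    unfold u1 u2 at h3
    rw [← add_div] at h3
    rcases div_eq_zero_iff.mp h3 with h5 | h5
    · exact h5
    · exact absurd h5 h4.ne'

theorem Djconst (hX : ∀ x x', 0 < |x' - x| → |x' - x| < T → u1 G n x x' + u2 G n x x' = 0)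
    (x : ℝ) (j : ℕ) : ∀ δ, |δ| < T → dot (n 0 x) (G j (x + δ)) = dot (n 0 0) (G j δ) := by
  induction j with
  | zero =>
    intro δ h
    have hd : ∀ y, HasDerivAt (fun y => Dk G n 0 0 y (y + δ)) 0 y := by
      intro y
      have h1 := H.sn.xd H.sG 0 0 y δ
      refine h1.congr_deriv ?_
      exact sumzero H hX h
    have := is_const_of_deriv_eq_zero (fun y => (hd y).differentiableAt)
      (fun y => (hd y).deriv) x 0
    simpa [Dk] using this
  | succ j ih =>
    intro δ h
    have h1 := H.sG.shift_d (n 0 x) j x δ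
    have h2 := H.sG.shift_d (n 0 0) j 0 δ
    simp only [zero_add] at h2
    have h3 : (fun δ => dot (n 0 0) (G j δ)) =ᶠ[𝓝 δ] fun δ => dot (n 0 x) (G j (x+δ)) := by
      have : ∀ᶠ e in 𝓝 δ, |e| < T := (continuous_abs.tendsto δ).eventually_lt_const h
      filter_upwards [this] with e he
      exact (ih e he).symm
    exact (h1.congr_of_eventuallyEq h3).unique h2

theorem even (hsym : ∀ x x', 0 < |x' - x| → |x' - x| < T → Dk G n 0 0 x x' = Dk G n 0 0 x' x)
    (hX : ∀ x x', 0 < |x' - x| → |x' - x| < T → u1 G n x x' + u2 G n x x' = 0)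
    (j : ℕ) : ∀ δ, |δ| < T → dot (n 0 0) (G j (-δ)) = (-1) ^ j * dot (n 0 0) (G j δ) := by
  induction j with
  | zero =>
    intro δ h
    simp only [pow_zero, one_mul]
    by_cases h0 : δ = 0
    · rw [h0, neg_zero]
    · have h1 := hsym 0 (-δ) (by simpa using h0) (by simpa using h)
      have h2 := Djconst H hX (-δ) 0 δ h
      unfold Dk at h1
      rw [neg_add_cancel] at h2
      rw [h1, h2]
  | succ j ih =>
    intro δ h
    have h1 := H.dG j (-δ)
    have h1' := h1.scomp δ (hasDerivAt_neg δ)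
    have h1'' := dot_hasDeriv_right h1' (n 0 0)
    have h2 := (dot_hasDeriv_right (H.dG j δ) (n 0 0)).const_mul ((-1) ^ j)
    have h3 : (fun δ => (-1) ^ j * dot (n 0 0) (G j δ)) =ᶠ[𝓝 δ]
        fun δ => dot (n 0 0) ((G j ∘ Neg.neg) δ) := by
      have : ∀ᶠ e in 𝓝 δ, |e| < T := (continuous_abs.tendsto δ).eventually_lt_const h
      filter_upwards [this] with e he
      exact (ih e he).symm
    have h4 := (h1''.congr_of_eventuallyEq h3).unique h2
    have h5 : dot (n 0 0) ((-1 : ℝ) • G (j + 1) (-δ)) = - dot (n 0 0) (G (j + 1) (-δ)) := by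
      unfold dot; simp; ring
    rw [h5] at h4
    rw [pow_succ]
    linarith

theorem G3 {p : ℝ} (hp : ∀ x, dot (n 0 x) (G 4 x) = p) (h5 : ∀ x, dot (n 0 x) (G 5 x) = 0)
    (x : ℝ) : G 3 x = p • G 1 x := by
  have e1 : ∀ x, dot (n 1 x) (G 3 x) = -p := by
    intro x
    have e : dot (n 1 x) (G 3 x) + dot (n 0 x) (G 4 x) = 0 := rel H (r03 H) x
    have := hp x
    linarith
  have e2 : dot (n 1 x) (G 4 x) = 0 := by
    have e : dot (n 1 x) (G 4 x) + dot (n 0 x) (G 5 x) = 0 := rel H hp x
    have := h5 x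
    linarith
  have e3 : dot (n 2 x) (G 3 x) = 0 := by
    have e : dot (n 2 x) (G 3 x) + dot (n 1 x) (G 4 x) = 0 := rel H e1 x
    linarith
  have hl : ∀ v : Fin 3 → ℝ, dot v (G 3 x - p • G 1 x) = dot v (G 3 x) - p * dot v (G 1 x) := by
    intro v; unfold dot; simp; ring
  have f0 : dot (n 0 x) (G 3 x - p • G 1 x) = 0 := by
    rw [hl, r03 H, r01 H]; ring
  have f1 : dot (n 1 x) (G 3 x - p • G 1 x) = 0 := by
    rw [hl, e1, r11 H]; ring
  have f2 : dot (n 2 x) (G 3 x - p • G 1 x) = 0 := by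
    rw [hl, e3, r21 H]; ring
  have hu := H.unit x
  rw [H.n0] at f0 hu
  rw [H.n1] at f1
  have hV := expand hu f0 f1
  have hm : ∀ (v w : Fin 3 → ℝ) (μ : ℝ), dot v (μ • w) = μ * dot v w := by
    intro v w μ; unfold dot; simp; ring
  rw [hV, hm, r20 H, mul_one] at f2
  rw [f2, zero_smul] at hV
  exact sub_eq_zero.mp hV

theorem p_neg {p : ℝ} (hG : ∀ x, G 3 x = p • G 1 x) : p < 0 := by
  by_contra hp
  push Not at hp
  have hT := H.Tpos
  have hz : ∀ i : Fin 3, G 2 (T / 2) i = 0 := by
    intro i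
    obtain ⟨F, hFd⟩ : ∃ F : ℝ → ℝ, F = fun x => G 1 x i * G 2 x i := ⟨_, rfl⟩
    have hF : ∀ x, HasDerivAt F (G 2 x i ^ 2 + p * G 1 x i ^ 2) x := by
      intro x
      have h1 := (hasDerivAt_pi.mp (H.dG 1 x)) i
      have h2 := (hasDerivAt_pi.mp (H.dG 2 x)) i
      rw [hFd]
      refine (h1.mul h2).congr_deriv ?_
      have e3 : G (2 + 1) x = p • G 1 x := hG x
      rw [e3]
      simp only [Nat.reduceAdd, Pi.smul_apply, smul_eq_mul]
      ring
    have hm : Monotone F := monotone_of_deriv_nonneg (fun x => (hF x).differentiableAt)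
      (fun x => by rw [(hF x).deriv]; positivity)
    have hTz : F T = F 0 := by
      have h1 := H.pG 1 0
      have h2 := H.pG 2 0
      rw [zero_add] at h1 h2
      simp only [hFd, h1, h2]
    have hc : F =ᶠ[𝓝 (T / 2)] fun _ => F 0 := by
      have : Ioo 0 T ∈ 𝓝 (T / 2) := Ioo_mem_nhds (by linarith) (by linarith)
      filter_upwards [this] with y hy
      have a1 := hm hy.1.le
      have a2 := hm hy.2.le
      linarith
    have h3 : HasDerivAt F 0 (T / 2) := (hasDerivAt_const (T / 2) (F 0)).congr_of_eventuallyEq hc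
    have h4 := (hF (T / 2)).unique h3
    have h5 : 0 ≤ p * G 1 (T / 2) i ^ 2 := by positivity
    have h6 : G 2 (T / 2) i ^ 2 = 0 := by
      have := sq_nonneg (G 2 (T / 2) i)
      linarith
    exact pow_eq_zero_iff two_ne_zero |>.mp h6
  have := H.unit (T / 2)
  simp [dot, hz] at this

end

/-- the kernel of a conic -/
lemma kerC (u v w : Fin 3 → ℝ) (k c s c' s' : ℝ) (h : s ^ 2 + c ^ 2 = 1) :
    dot (crs (c • u + s • v + w) ((-(k * s)) • u + (k * c) • v)) (c' • u + s' • v + w) =
      k * dot (crs u v) w * (1 - (c * c' + s * s')) := by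
  simp only [dot, crs0, crs1, crs2, Pi.add_apply, Pi.smul_apply, smul_eq_mul]
  linear_combination (k * ((u 1 * v 2 - u 2 * v 1) * w 0 + (u 2 * v 0 - u 0 * v 2) * w 1 +
    (u 0 * v 1 - u 1 * v 0) * w 2)) * h

lemma kerC1 (u v w : Fin 3 → ℝ) (k c s c' s' : ℝ) :
    dot (crs (c • u + s • v + w) ((-(k ^ 2 * c)) • u + (-(k ^ 2 * s)) • v))
      (c' • u + s' • v + w) = - (k ^ 2 * dot (crs u v) w * (s' * c - c' * s)) := by
  simp only [dot, crs0, crs1, crs2, Pi.add_apply, Pi.smul_apply, smul_eq_mul]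
  ring

/-- `RIGID` -/
theorem rigid {T : ℝ} {G n : ℕ → ℝ → (Fin 3 → ℝ)} (H : Curve T G n)
    (hsym : ∀ x x', 0 < |x' - x| → |x' - x| < T → Dk G n 0 0 x x' = Dk G n 0 0 x' x)
    (hX : ∀ x x', 0 < |x' - x| → |x' - x| < T → u1 G n x x' + u2 G n x x' = 0) :
    ∃ u v w : Fin 3 → ℝ, dot (crs u v) w ≠ 0 ∧
      (∀ x, G 0 x = Real.cos (2 * π / T * x) • u + Real.sin (2 * π / T * x) • v + w) ∧
      ∀ τ, Leaf T τ → (∀ u, u1 G n (τ u) (τ (τ u)) = - u1 G n (τ u) u) →
        ∃ d, 0 < d ∧ d < T ∧ ∀ x, τ x = x + d := by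
  have hT := H.Tpos
  -- the constants
  have hc : ∀ j x, dot (n 0 x) (G j x) = dot (n 0 0) (G j 0) := by
    intro j x
    have := Djconst H hX x j 0 (by simpa using hT)
    simpa using this
  have h5 : ∀ x, dot (n 0 x) (G 5 x) = 0 := by
    intro x
    rw [hc]
    have := even H hsym hX 5 0 (by simpa using hT)
    rw [neg_zero] at this
    have e : ((-1 : ℝ)) ^ 5 = -1 := by norm_num
    rw [e] at this
    linarith
  obtain ⟨p, hp⟩ : ∃ p, p = dot (n 0 0) (G 4 0) := ⟨_, rfl⟩
  have hG := G3 H (p := p) (fun x => by rw [hp]; exact hc 4 x) h5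
  have hpn := p_neg H hG
  obtain ⟨k, hk⟩ : ∃ k, k = Real.sqrt (-p) := ⟨_, rfl⟩
  have hkp : 0 < k := by rw [hk]; exact Real.sqrt_pos.mpr (by linarith)
  have hpk : p = -k ^ 2 := by
    rw [hk, Real.sq_sqrt (by linarith)]; ring
  -- the curve
  have hcomp : ∀ i : Fin 3, ∃ u v w : ℝ, ∀ x, G 0 x i = cos (k * x) * u + sin (k * x) * v + w := by
    intro i
    apply ode hkp.ne' (g1 := fun x => G 1 x i) (g2 := fun x => G 2 x i)
    · intro x; exact (hasDerivAt_pi.mp (H.dG 0 x)) i
    · intro x; exact (hasDerivAt_pi.mp (H.dG 1 x)) i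
    · intro x
      have h2 := (hasDerivAt_pi.mp (H.dG 2 x)) i
      refine h2.congr_deriv ?_
      have e3 : G (2 + 1) x = p • G 1 x := hG x
      rw [e3, hpk]
      simp
  choose u v w huvw using hcomp
  have hG0 : ∀ x, G 0 x = cos (k * x) • u + sin (k * x) • v + w := by
    intro x
    funext i
    simp [huvw i x]
  have hkx : ∀ x : ℝ, HasDerivAt (fun x => k * x) k x := by
    intro x
    simpa using (hasDerivAt_id x).const_mul k
  have hcd : ∀ x : ℝ, HasDerivAt (fun x => cos (k * x)) (-sin (k * x) * k) x := fun x =>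
    (hkx x).cos
  have hsd : ∀ x : ℝ, HasDerivAt (fun x => sin (k * x)) (cos (k * x) * k) x := fun x =>
    (hkx x).sin
  have hG1 : ∀ x, G 1 x = (-(k * sin (k * x))) • u + (k * cos (k * x)) • v := by
    intro x
    have h1 := H.dG 0 x
    have h2 : HasDerivAt (G 0) ((-(k * sin (k * x))) • u + (k * cos (k * x)) • v) x := by
      have e : G 0 = fun x => cos (k * x) • u + sin (k * x) • v + w := funext hG0
      rw [e]
      refine ((((hcd x).smul_const u).add ((hsd x).smul_const v)).add_const w).congr_deriv ?_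
      congr 2 <;> ring
    exact h1.unique h2
  have hG2 : ∀ x, G 2 x = (-(k ^ 2 * cos (k * x))) • u + (-(k ^ 2 * sin (k * x))) • v := by
    intro x
    have h1 := H.dG 1 x
    have h2 : HasDerivAt (G 1) ((-(k ^ 2 * cos (k * x))) • u + (-(k ^ 2 * sin (k * x))) • v) x := by
      have e : G 1 = fun x => (-(k * sin (k * x))) • u + (k * cos (k * x)) • v := funext hG1
      rw [e]
      refine ((((hsd x).const_mul k).neg.smul_const u).add
        (((hcd x).const_mul k).smul_const v)).congr_deriv ?_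
      congr 2 <;> ring
    exact h1.unique h2
  obtain ⟨d, hd⟩ : ∃ d, d = dot (crs u v) w := ⟨_, rfl⟩
  have hD : ∀ x x', Dk G n 0 0 x x' = k * d * (1 - cos (k * (x' - x))) := by
    intro x x'
    unfold Dk
    rw [H.n0, hG0 x, hG1 x, hG0 x', kerC _ _ _ _ _ _ _ _ (sin_sq_add_cos_sq _), ← hd]
    congr 2
    rw [mul_sub, cos_sub]
    ring
  have hD1 : ∀ x x', Dk G n 1 0 x x' = - (k ^ 2 * d * sin (k * (x' - x))) := by
    intro x x'
    unfold Dk
    rw [H.n1, hG0 x, hG2 x, hG0 x', kerC1, ← hd]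
    congr 2
    rw [mul_sub, sin_sub]
  have hdp : 0 < d := by
    have h1 := D_pos H (x := 0) (x' := T / 2) (by
      rw [sub_zero, abs_pos]; positivity) (by
      rw [sub_zero, abs_of_pos (by positivity)]; linarith)
    rw [hD] at h1
    have h2 : 0 ≤ 1 - cos (k * (T / 2 - 0)) := by linarith [cos_le_one (k * (T / 2 - 0))]
    by_contra hcon
    push Not at hcon
    have : k * d * (1 - cos (k * (T / 2 - 0))) ≤ 0 := by
      apply mul_nonpos_of_nonpos_of_nonneg _ h2
      exact mul_nonpos_of_nonneg_of_nonpos hkp.le hcon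
    linarith
  -- the period
  have hle : k * T ≤ 2 * π := by
    by_contra hcon
    push Not at hcon
    have hlt : 2 * π / k < T := by
      rw [div_lt_iff₀ hkp]; linarith
    have hpi := Real.pi_pos
    have h1 := D_pos H (x := 0) (x' := 2 * π / k) (by
      rw [sub_zero, abs_pos]; positivity) (by
      rw [sub_zero, abs_of_pos (by positivity)]; exact hlt)
    rw [hD, sub_zero, mul_div_cancel₀ _ hkp.ne', cos_two_pi] at h1
    simp at h1
  have hkT : k * T = 2 * π := by
    rcases hle.eq_or_lt with h | h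
    · exact h
    · exfalso
      have h1 : Dk G n 0 0 0 T = 0 := by
        have h2 := Dk_per2 H 0 0 0 0
        rw [zero_add] at h2
        rw [h2]
        exact r00 H 0
      rw [hD, sub_zero] at h1
      have h3 : 1 - cos (k * T) = 0 := by
        rcases mul_eq_zero.mp h1 with h4 | h4
        · exact absurd h4 (by positivity)
        · exact h4
      have hpos : 0 < k * T := by positivity
      have h4 := (cos_eq_one_iff_of_lt_of_lt (by linarith) h).mp (by linarith)
      linarith
  have hkd : 2 * π / T = k := by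
    rw [div_eq_iff hT.ne']; exact hkT.symm
  refine ⟨u, v, w, by rw [← hd]; exact hdp.ne', fun x => by rw [hkd]; exact hG0 x, ?_⟩
  intro τ hτ hinv
  apply leaf_const hτ hT
  intro x
  have a1 := hτ.above x
  have a2 := hτ.below x
  have a3 := hτ.above (τ x)
  have a4 := hτ.below (τ x)
  have hi := hinv x
  have hcos : ∀ δ, 0 < δ → δ < T → cos (k * δ) < 1 := by
    intro δ h1 h2
    have := D_pos H (x := 0) (x' := δ) (by
      rw [sub_zero, abs_pos]; exact h1.ne') (by
      rw [sub_zero, abs_of_pos h1]; exact h2)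
    rw [hD, sub_zero] at this
    have h3 : 0 < k * d := by positivity
    have := (mul_pos_iff_of_pos_left h3).mp this
    linarith
  have c1 := hcos (τ x - x) (by linarith) (by linarith)
  have c2 := hcos (τ (τ x) - τ x) (by linarith) (by linarith)
  unfold u1 at hi
  rw [hD, hD1, hD, hD1] at hi
  have e1 : k * (x - τ x) = - (k * (τ x - x)) := by ring
  rw [e1, cos_neg, sin_neg] at hi
  have n1 : 1 - cos (k * (τ x - x)) ≠ 0 := by linarith
  have n2 : 1 - cos (k * (τ (τ x) - τ x)) ≠ 0 := by linarith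
  have n3 := hkp.ne'
  have n4 := hdp.ne'
  have key : sin (k * (τ (τ x) - τ x)) * (1 - cos (k * (τ x - x))) =
      sin (k * (τ x - x)) * (1 - cos (k * (τ (τ x) - τ x))) := by
    field_simp at hi
    linarith
  have hf := cot_inj (α := k * (τ (τ x) - τ x)) (β := k * (τ x - x))
    (mul_pos hkp (by linarith)) (by rw [← hkT]; exact mul_lt_mul_of_pos_left (by linarith) hkp)
    (mul_pos hkp (by linarith)) (by rw [← hkT]; exact mul_lt_mul_of_pos_left (by linarith) hkp)
    key
  exact mul_left_cancel₀ n3 hf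

end Pool.Agent.TH645.PG.Rigid
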