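import Pool.Agent.TH645.PG.Orbit

/-!
Integration of the orbit inequality.
-/

set_option autoImplicit false

namespace Pool.Agent.TH645.PG

open Real Filter Topology MeasureTheory Set
open Pool.Agent.TH229.PG
open scoped ENNReal

variable {T : ℝ} {Y a P : ℝ → ℝ → ℝ}

theorem om_ae : ∀ᵐ q ∂(om T), q.2 ∈ Ioo 0 T := by
  rw [om_eq]
  filter_upwards [ae_restrict_mem (measurableSet_Ioc.prod measurableSet_Ioo)] with q hq
  exact hq.2

/-- admissible densities -/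
structure Gd (T : ℝ) (a : ℝ → ℝ → ℝ) (ψ : ℝ × ℝ → ℝ) : Prop where
  meas : Measurable ψ
  per : ∀ x x', ψ (x + T, x' + T) = ψ (x, x')
  int : Integrable (fun q : ℝ × ℝ => a q.1 (q.1 + q.2) * ψ (q.1, q.1 + q.2)) (om T)

theorem apos1 (H : HopfData T Y a P) {x d : ℝ} (hd : d ∈ Ioo 0 T) : 0 < a x (x + d) :=
  H.apos x (x + d) (by rw [show x + d - x = d by ring, abs_of_pos hd.1]; exact hd.1) (by
      rw [show x + d - x = d by ring, abs_of_pos hd.1]; exact hd.2)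

theorem apos2 (H : HopfData T Y a P) {x d : ℝ} (hd : d ∈ Ioo 0 T) : 0 < a (x + d) x :=
  H.apos (x + d) x (by
      rw [show x - (x + d) = -d by ring, abs_neg, abs_of_pos hd.1]; exact hd.1) (by
      rw [show x - (x + d) = -d by ring, abs_neg, abs_of_pos hd.1]; exact hd.2)

theorem ms1 : Measurable (fun q : ℝ × ℝ => ((q.1, q.1 + q.2) : ℝ × ℝ)) :=
  measurable_fst.prodMk (measurable_fst.add measurable_snd)

theorem ms2 : Measurable (fun q : ℝ × ℝ => ((q.1 + q.2, q.1) : ℝ × ℝ)) :=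
  (measurable_fst.add measurable_snd).prodMk measurable_fst

theorem Gd.step (H : HopfData T Y a P) {ψ : ℝ × ℝ → ℝ} (h : Gd T a ψ) :
    Gd T a (L T Y a ψ) ∧
    ∫ q, a q.1 (q.1 + q.2) * L T Y a ψ (q.1, q.1 + q.2) ∂(om T) =
      ∫ q, a q.1 (q.1 + q.2) * ψ (q.1, q.1 + q.2) ∂(om T) := by
  have hmF := measurable_F H
  have e0 : (fun q : ℝ × ℝ => a (q.1 + q.2) q.1 * ψ (F T Y (q.1, q.1 + q.2))) =ᵐ[om T]
      (fun q : ℝ × ℝ => a q.1 (q.1 + q.2) * L T Y a ψ (q.1, q.1 + q.2)) := by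
    filter_upwards [om_ae] with q hq
    have := apos1 H (x := q.1) hq
    unfold L
    simp only
    field_simp
  have m1 : Measurable (fun q : ℝ × ℝ => a (q.1 + q.2) q.1 * ψ (F T Y (q.1, q.1 + q.2))) :=
    (H.measa.comp ms2).mul ((h.meas.comp hmF).comp ms1)
  have key : ∀ f : ℝ × ℝ → ℝ≥0∞, Measurable f → (∀ x x', f (x + T, x' + T) = f (x, x')) →
      ∫⁻ q, ENNReal.ofReal (a (q.1 + q.2) q.1) * f (F T Y (q.1, q.1 + q.2)) ∂(om T) =
      ∫⁻ q, ENNReal.ofReal (a q.1 (q.1 + q.2)) * f (q.1, q.1 + q.2) ∂(om T) :=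
    fun f hf hp => lint_inv H f hf hp
  have i1 : Integrable (fun q : ℝ × ℝ => a (q.1 + q.2) q.1 * ψ (F T Y (q.1, q.1 + q.2)))
      (om T) := by
    refine ⟨m1.aestronglyMeasurable, ?_⟩
    have h2 := h.int.2
    rw [hasFiniteIntegral_iff_norm] at h2 ⊢
    have k := key (fun p => ENNReal.ofReal ‖ψ p‖) h.meas.norm.ennreal_ofReal (fun x x' => by
      rw [h.per])
    have l1 : ∫⁻ q, ENNReal.ofReal ‖a (q.1 + q.2) q.1 * ψ (F T Y (q.1, q.1 + q.2))‖ ∂(om T) =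
        ∫⁻ q, ENNReal.ofReal (a (q.1 + q.2) q.1) *
          ENNReal.ofReal ‖ψ (F T Y (q.1, q.1 + q.2))‖ ∂(om T) := by
      refine lintegral_congr_ae ?_
      filter_upwards [om_ae] with q hq
      have := apos2 H (x := q.1) hq
      rw [norm_mul, Real.norm_of_nonneg this.le, ENNReal.ofReal_mul this.le]
    have l2 : ∫⁻ q, ENNReal.ofReal ‖a q.1 (q.1 + q.2) * ψ (q.1, q.1 + q.2)‖ ∂(om T) =
        ∫⁻ q, ENNReal.ofReal (a q.1 (q.1 + q.2)) *
          ENNReal.ofReal ‖ψ (q.1, q.1 + q.2)‖ ∂(om T) := by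
      refine lintegral_congr_ae ?_
      filter_upwards [om_ae] with q hq
      have := apos1 H (x := q.1) hq
      rw [norm_mul, Real.norm_of_nonneg this.le, ENNReal.ofReal_mul this.le]
    rw [l1, k, ← l2]
    exact h2
  refine ⟨⟨?_, ?_, i1.congr e0⟩, ?_⟩
  · unfold L
    exact ((H.measa.comp (measurable_snd.prodMk measurable_fst)).div H.measa).mul
      (h.meas.comp hmF)
  · intro x x'
    unfold L
    simp only
    rw [F_per H, H.pera1, H.pera2, H.pera1, H.pera2, h.per]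
  · rw [← integral_congr_ae e0, integral_eq_lintegral_pos_part_sub_lintegral_neg_part i1,
      integral_eq_lintegral_pos_part_sub_lintegral_neg_part h.int]
    have k1 := key (fun p => ENNReal.ofReal (ψ p)) h.meas.ennreal_ofReal (fun x x' => by
      rw [h.per])
    have k2 := key (fun p => ENNReal.ofReal (-ψ p)) h.meas.neg.ennreal_ofReal (fun x x' => by
      rw [h.per])
    have l1 : ∫⁻ q, ENNReal.ofReal (a (q.1 + q.2) q.1 * ψ (F T Y (q.1, q.1 + q.2))) ∂(om T) =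
        ∫⁻ q, ENNReal.ofReal (a q.1 (q.1 + q.2) * ψ (q.1, q.1 + q.2)) ∂(om T) := by
      have a1 : ∫⁻ q, ENNReal.ofReal (a (q.1 + q.2) q.1 * ψ (F T Y (q.1, q.1 + q.2))) ∂(om T) =
          ∫⁻ q, ENNReal.ofReal (a (q.1 + q.2) q.1) *
            ENNReal.ofReal (ψ (F T Y (q.1, q.1 + q.2))) ∂(om T) := by
        refine lintegral_congr_ae ?_
        filter_upwards [om_ae] with q hq
        rw [ENNReal.ofReal_mul (apos2 H (x := q.1) hq).le]
      have a2 : ∫⁻ q, ENNReal.ofReal (a q.1 (q.1 + q.2) * ψ (q.1, q.1 + q.2)) ∂(om T) =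
          ∫⁻ q, ENNReal.ofReal (a q.1 (q.1 + q.2)) *
            ENNReal.ofReal (ψ (q.1, q.1 + q.2)) ∂(om T) := by
        refine lintegral_congr_ae ?_
        filter_upwards [om_ae] with q hq
        rw [ENNReal.ofReal_mul (apos1 H (x := q.1) hq).le]
      rw [a1, a2, k1]
    have l2 : ∫⁻ q, ENNReal.ofReal (-(a (q.1 + q.2) q.1 * ψ (F T Y (q.1, q.1 + q.2)))) ∂(om T) =
        ∫⁻ q, ENNReal.ofReal (-(a q.1 (q.1 + q.2) * ψ (q.1, q.1 + q.2))) ∂(om T) := by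
      have a1 : ∫⁻ q, ENNReal.ofReal (-(a (q.1 + q.2) q.1 * ψ (F T Y (q.1, q.1 + q.2))))
          ∂(om T) = ∫⁻ q, ENNReal.ofReal (a (q.1 + q.2) q.1) *
            ENNReal.ofReal (-ψ (F T Y (q.1, q.1 + q.2))) ∂(om T) := by
        refine lintegral_congr_ae ?_
        filter_upwards [om_ae] with q hq
        rw [← mul_neg, ENNReal.ofReal_mul (apos2 H (x := q.1) hq).le]
      have a2 : ∫⁻ q, ENNReal.ofReal (-(a q.1 (q.1 + q.2) * ψ (q.1, q.1 + q.2))) ∂(om T) =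
          ∫⁻ q, ENNReal.ofReal (a q.1 (q.1 + q.2)) *
            ENNReal.ofReal (-ψ (q.1, q.1 + q.2)) ∂(om T) := by
        refine lintegral_congr_ae ?_
        filter_upwards [om_ae] with q hq
        rw [← mul_neg, ENNReal.ofReal_mul (apos1 H (x := q.1) hq).le]
      rw [a1, a2, k2]
    rw [l1, l2]

theorem Gd.iter (H : HopfData T Y a P) {ψ : ℝ × ℝ → ℝ} (h : Gd T a ψ) (n : ℕ) :
    Gd T a ((L T Y a)^[n] ψ) ∧
    ∫ q, a q.1 (q.1 + q.2) * (L T Y a)^[n] ψ (q.1, q.1 + q.2) ∂(om T) =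
      ∫ q, a q.1 (q.1 + q.2) * ψ (q.1, q.1 + q.2) ∂(om T) := by
  induction n with
  | zero => exact ⟨h, rfl⟩
  | succ n ih =>
    rw [Function.iterate_succ_apply']
    obtain ⟨h1, h2⟩ := ih
    obtain ⟨h3, h4⟩ := h1.step H
    exact ⟨h3, h4.trans h2⟩

/-- the averaged inequality -/
theorem avg_ineq (H : HopfData T Y a P) (Φ : ℝ × ℝ → ℝ) (hΦ : ∀ p, 0 ≤ Φ p)
    (g1 : Gd T a (fun p => P p.1 p.2 * Φ p ^ 2))
    (g2 : Gd T a (fun p => a p.2 p.1 / a p.1 p.2 * (P p.2 p.1 * Φ (F T Y p) ^ 2)))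
    (g3 : Gd T a (fun p => a p.2 p.1 * (Φ p * Φ (F T Y p)))) :
    2 * ∫ q, a q.1 (q.1 + q.2) * (a (q.1 + q.2) q.1 *
        (Φ (q.1, q.1 + q.2) * Φ (F T Y (q.1, q.1 + q.2)))) ∂(om T) ≤
      ∫ q, a q.1 (q.1 + q.2) * (P q.1 (q.1 + q.2) * Φ (q.1, q.1 + q.2) ^ 2) ∂(om T) +
      ∫ q, a q.1 (q.1 + q.2) * (a (q.1 + q.2) q.1 / a q.1 (q.1 + q.2) *
        (P (q.1 + q.2) q.1 * Φ (F T Y (q.1, q.1 + q.2)) ^ 2)) ∂(om T) := by
  set ψ1 : ℝ × ℝ → ℝ := fun p => P p.1 p.2 * Φ p ^ 2 with hψ1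
  set ψ2 : ℝ × ℝ → ℝ := fun p => a p.2 p.1 / a p.1 p.2 * (P p.2 p.1 * Φ (F T Y p) ^ 2) with hψ2
  set ψ3 : ℝ × ℝ → ℝ := fun p => a p.2 p.1 * (Φ p * Φ (F T Y p)) with hψ3
  set A1 : ℝ := ∫ q, a q.1 (q.1 + q.2) * ψ1 (q.1, q.1 + q.2) ∂(om T) with hA1
  set A2 : ℝ := ∫ q, a q.1 (q.1 + q.2) * ψ2 (q.1, q.1 + q.2) ∂(om T) with hA2
  set A3 : ℝ := ∫ q, a q.1 (q.1 + q.2) * ψ3 (q.1, q.1 + q.2) ∂(om T) with hA3
  change 2 * A3 ≤ A1 + A2
  have key : ∀ M : ℕ, 2 * ((M : ℝ) * A3) ≤ ((M : ℝ) + 1) * A1 + ((M : ℝ) + 1) * A2 := by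
    intro M
    have s1 : ∫ q, ∑ n ∈ Finset.range (M + 1), a q.1 (q.1 + q.2) *
        (L T Y a)^[n + 1] ψ1 (q.1, q.1 + q.2) ∂(om T) = ((M : ℝ) + 1) * A1 := by
      rw [integral_finsetSum _ fun n _ => ((g1.iter H (n + 1)).1).int]
      simp only [(g1.iter H _).2, Finset.sum_const, Finset.card_range, nsmul_eq_mul]
      push_cast
      rfl
    have s2 : ∫ q, ∑ n ∈ Finset.range (M + 1), a q.1 (q.1 + q.2) *
        (L T Y a)^[n] ψ2 (q.1, q.1 + q.2) ∂(om T) = ((M : ℝ) + 1) * A2 := by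
      rw [integral_finsetSum _ fun n _ => ((g2.iter H n).1).int]
      simp only [(g2.iter H _).2, Finset.sum_const, Finset.card_range, nsmul_eq_mul]
      push_cast
      rfl
    have s3 : ∫ q, ∑ n ∈ Finset.range M, a q.1 (q.1 + q.2) *
        (L T Y a)^[n + 1] ψ3 (q.1, q.1 + q.2) ∂(om T) = (M : ℝ) * A3 := by
      rw [integral_finsetSum _ fun n _ => ((g3.iter H (n + 1)).1).int]
      simp only [(g3.iter H _).2, Finset.sum_const, Finset.card_range, nsmul_eq_mul]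
      rfl
    have i1 : Integrable (fun q : ℝ × ℝ => ∑ n ∈ Finset.range (M + 1), a q.1 (q.1 + q.2) *
        (L T Y a)^[n + 1] ψ1 (q.1, q.1 + q.2)) (om T) :=
      integrable_finsetSum _ fun n _ => ((g1.iter H (n + 1)).1).int
    have i2 : Integrable (fun q : ℝ × ℝ => ∑ n ∈ Finset.range (M + 1), a q.1 (q.1 + q.2) *
        (L T Y a)^[n] ψ2 (q.1, q.1 + q.2)) (om T) :=
      integrable_finsetSum _ fun n _ => ((g2.iter H n).1).int
    have i3 : Integrable (fun q : ℝ × ℝ => ∑ n ∈ Finset.range M, a q.1 (q.1 + q.2) *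
        (L T Y a)^[n + 1] ψ3 (q.1, q.1 + q.2)) (om T) :=
      integrable_finsetSum _ fun n _ => ((g3.iter H (n + 1)).1).int
    rw [← s1, ← s2, ← s3, ← integral_const_mul, ← integral_add i1 i2]
    refine integral_mono_ae (i3.const_mul 2) (i1.add i2) ?_
    filter_upwards [om_ae] with q hq
    have hp := point_ineq H Φ hΦ M (x := q.1) (x' := q.1 + q.2) (by linarith [hq.1])
      (by linarith [hq.2])
    have ha := (apos1 H (x := q.1) hq).le
    rw [← Finset.mul_sum, ← Finset.mul_sum, ← Finset.mul_sum, ← mul_add]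
    have := mul_le_mul_of_nonneg_left hp ha
    calc _ = a q.1 (q.1 + q.2) * (2 * ∑ n ∈ Finset.range M,
          (L T Y a)^[n + 1] ψ3 (q.1, q.1 + q.2)) := by ring
      _ ≤ _ := this
  by_contra hlt
  rw [not_le] at hlt
  have hpos : 0 < 2 * A3 - (A1 + A2) := sub_pos.mpr hlt
  obtain ⟨M, hM⟩ := exists_nat_gt ((A1 + A2) / (2 * A3 - (A1 + A2)))
  have h1 := key M
  have h2 : (A1 + A2) < M * (2 * A3 - (A1 + A2)) := (div_lt_iff₀ hpos).mp hM
  nlinarith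

end Pool.Agent.TH645.PG
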