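import Pool.Agent.TH229.PG.HopfDefs

/-!
The phase map `F (x, x') = (x', x'')`, `Y (x', x'') = - Y (x', x)`, in the coordinates `(x, x')`,
its measurability and the transformation of the area.
-/

set_option autoImplicit false

namespace Pool.Agent.TH645.PG

open Real Filter Topology MeasureTheory Set
open Pool.Agent.TH229.PG
open scoped ENNReal

variable {T : ℝ} {Y a P : ℝ → ℝ → ℝ}

theorem anti (H : HopfData T Y a P) (x : ℝ) : StrictAntiOn (Y x) (Ioo x (x + T)) := by
  have hd : ∀ z ∈ Ioo x (x + T), HasDerivAt (Y x) (-a x z) z := by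
    intro z hz
    refine H.dY2 x z ?_ ?_
    · rw [abs_of_pos (by linarith [hz.1])]; linarith [hz.1]
    · rw [abs_of_pos (by linarith [hz.1])]; linarith [hz.2]
  refine strictAntiOn_of_deriv_neg (convex_Ioo _ _)
    (fun z hz => (hd z hz).continuousAt.continuousWithinAt) ?_
  intro z hz
  rw [interior_Ioo] at hz
  rw [(hd z hz).deriv]
  have := H.apos x z (by rw [abs_of_pos (by linarith [hz.1])]; linarith [hz.1])
    (by rw [abs_of_pos (by linarith [hz.1])]; linarith [hz.2])
  linarith

theorem surj (H : HopfData T Y a P) (x u : ℝ) : ∃ z ∈ Ioo x (x + T), Y x z = u := by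
  have hT := H.Tpos
  have hlt : x < x + T := by linarith
  have hc : ContinuousOn (Y x) (Ioo x (x + T)) := by
    intro z hz
    refine (H.dY2 x z ?_ ?_).continuousAt.continuousWithinAt
    · rw [abs_of_pos (by linarith [hz.1])]; linarith [hz.1]
    · rw [abs_of_pos (by linarith [hz.1])]; linarith [hz.2]
  have h1 : Tendsto (fun z : Ioo x (x + T) => Y x z) atBot atTop :=
    (tendsto_comp_coe_Ioo_atBot hlt).2 (H.limr x)
  have h2 : Tendsto (fun z : Ioo x (x + T) => Y x z) atTop atBot :=
    (tendsto_comp_coe_Ioo_atTop hlt).2 (H.liml x)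
  have := hc.surjOn_of_tendsto' (nonempty_Ioo.2 hlt) h1 h2
  obtain ⟨z, hz, h⟩ := this (mem_univ u)
  exact ⟨z, hz, h⟩

/-- inverse of `Y x` on `(x, x + T)` -/
noncomputable def X (T : ℝ) (Y : ℝ → ℝ → ℝ) (x u : ℝ) : ℝ :=
  Classical.epsilon (fun z => z ∈ Ioo x (x + T) ∧ Y x z = u)

theorem X_spec (H : HopfData T Y a P) (x u : ℝ) :
    X T Y x u ∈ Ioo x (x + T) ∧ Y x (X T Y x u) = u := by
  obtain ⟨z, hz, h⟩ := surj H x u
  exact Classical.epsilon_spec (p := fun z => z ∈ Ioo x (x + T) ∧ Y x z = u) ⟨z, hz, h⟩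

theorem X_eq (H : HopfData T Y a P) {x z u : ℝ} (hz : z ∈ Ioo x (x + T)) (h : Y x z = u) :
    X T Y x u = z := by
  obtain ⟨h1, h2⟩ := X_spec H x u
  exact (anti H x).injOn h1 hz (h2.trans h.symm)

theorem X_per (H : HopfData T Y a P) (x u : ℝ) : X T Y (x + T) u = X T Y x u + T := by
  obtain ⟨h1, h2⟩ := X_spec H x u
  refine X_eq H ⟨by linarith [h1.1], by linarith [h1.2]⟩ ?_
  rw [H.perY1, H.perY2, h2]

theorem measurable_X (H : HopfData T Y a P) :
    Measurable (fun p : ℝ × ℝ => X T Y p.1 p.2) := by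
  refine measurable_of_Iio fun c => ?_
  have e : (fun p : ℝ × ℝ => X T Y p.1 p.2) ⁻¹' Iio c =
      {p : ℝ × ℝ | p.1 + T ≤ c} ∪ {p : ℝ × ℝ | p.1 < c ∧ c < p.1 + T ∧ Y p.1 c < p.2} := by
    ext p
    obtain ⟨h1, h2⟩ := X_spec H p.1 p.2
    simp only [mem_preimage, mem_Iio, mem_union, mem_ofPred_eq]
    constructor
    · intro h
      by_cases hc : p.1 + T ≤ c
      · exact Or.inl hc
      · push Not at hc
        refine Or.inr ⟨h1.1.trans h, hc, ?_⟩
        have := (anti H p.1) h1 ⟨h1.1.trans h, hc⟩ h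
        rwa [h2] at this
    · rintro (h | ⟨h, h', h''⟩)
      · exact h1.2.trans_le h
      · by_contra hcon
        push Not at hcon
        have := (anti H p.1).antitoneOn ⟨h, h'⟩ h1 hcon
        rw [h2] at this
        linarith
  rw [e]
  have m1 : Measurable (fun p : ℝ × ℝ => Y p.1 c) :=
    H.measY.comp (measurable_fst.prodMk measurable_const)
  refine (measurableSet_le (measurable_fst.add_const T) measurable_const).union ?_
  exact (measurableSet_lt measurable_fst measurable_const).inter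
    ((measurableSet_lt measurable_const (measurable_fst.add_const T)).inter
      (measurableSet_lt m1 measurable_snd))

/-- the phase map -/
noncomputable def F (T : ℝ) (Y : ℝ → ℝ → ℝ) (p : ℝ × ℝ) : ℝ × ℝ :=
  (p.2, X T Y p.2 (-Y p.2 p.1))

theorem measurable_F (H : HopfData T Y a P) : Measurable (F T Y) := by
  have m1 : Measurable (fun p : ℝ × ℝ => -Y p.2 p.1) :=
    (H.measY.comp (measurable_snd.prodMk measurable_fst)).neg
  exact measurable_snd.prodMk ((measurable_X H).comp (measurable_snd.prodMk m1))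

theorem F_per (H : HopfData T Y a P) (x x' : ℝ) :
    F T Y (x + T, x' + T) = ((F T Y (x, x')).1 + T, (F T Y (x, x')).2 + T) := by
  unfold F
  simp only
  rw [H.perY1, H.perY2, X_per H]

theorem F_leaf (H : HopfData T Y a P) {τ : ℝ → ℝ} (hl : Leaf T τ)
    (hi : ∀ u, Y (τ u) (τ (τ u)) = - Y (τ u) u) (u : ℝ) : F T Y (u, τ u) = (τ u, τ (τ u)) := by
  unfold F
  simp only
  rw [X_eq H ⟨hl.above _, hl.below _⟩ (hi u)]

theorem lint_shift (hT : 0 < T) (f : ℝ → ℝ≥0∞) (hf : Function.Periodic f T) (c : ℝ) :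
    ∫⁻ x in Ioc 0 T, f (x + c) = ∫⁻ x in Ioc 0 T, f x := by
  have h1 : ∫⁻ x in Ioc 0 T, f (x + c) = ∫⁻ x in Ioc c (c + T), f x := by
    have h := (measurePreserving_add_right volume c).setLIntegral_comp_preimage_emb
      (measurableEmbedding_addRight c) f (Ioc c (c + T))
    rw [← h]
    congr 2
    ext x
    simp only [mem_preimage, mem_Ioc]
    constructor
    · rintro ⟨h1, h2⟩; constructor <;> linarith
    · rintro ⟨h1, h2⟩; constructor <;> linarith
  rw [h1]
  have : VAddInvariantMeasure (AddSubgroup.zmultiples T) ℝ volume :=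
    ⟨fun c s _ => measure_preimage_add _ _ _⟩
  have h2 := (isAddFundamentalDomain_Ioc hT c (μ := volume)).setLIntegral_eq
    (isAddFundamentalDomain_Ioc hT 0 (μ := volume)) f hf.map_vadd_zmultiples
  rw [h2]
  simp

/-- area of the strip -/
noncomputable def om (T : ℝ) : Measure (ℝ × ℝ) :=
  (volume.restrict (Ioc 0 T)).prod (volume.restrict (Ioo 0 T))

theorem om_eq : om T = (volume : Measure (ℝ × ℝ)).restrict (Ioc 0 T ×ˢ Ioo 0 T) := by
  unfold om
  rw [Measure.prod_restrict]
  rfl

instance : IsFiniteMeasure (om T) := by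
  unfold om; infer_instance

theorem lint_swap (hT : 0 < T) (f : ℝ × ℝ → ℝ≥0∞) (hf : Measurable f)
    (hper : ∀ x x', f (x + T, x' + T) = f (x, x')) :
    ∫⁻ q, f (q.1, q.1 + q.2) ∂(om T) = ∫⁻ q, f (q.1 - q.2, q.1) ∂(om T) := by
  unfold om
  have m1 : Measurable (fun q : ℝ × ℝ => f (q.1, q.1 + q.2)) :=
    hf.comp (measurable_fst.prodMk (measurable_fst.add measurable_snd))
  have m2 : Measurable (fun q : ℝ × ℝ => f (q.1 - q.2, q.1)) :=
    hf.comp ((measurable_fst.sub measurable_snd).prodMk measurable_fst)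
  rw [lintegral_prod_symm _ m1.aemeasurable, lintegral_prod_symm _ m2.aemeasurable]
  refine lintegral_congr fun d => ?_
  simp only
  have := lint_shift hT (fun x => f (x - d, x)) (fun x => by
    have h := hper (x - d) x
    simp only
    rw [← h]
    congr 2
    ring) d
  rw [← this]
  refine lintegral_congr fun x => ?_
  simp only [add_sub_cancel_right]

theorem inner1 (H : HopfData T Y a P) (f : ℝ × ℝ → ℝ≥0∞) (x : ℝ) :
    ∫⁻ d in Ioo 0 T, ENNReal.ofReal (a x (x + d)) * f (x, x + d) = ∫⁻ u, f (x, X T Y x u) := by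
  have hder : ∀ d ∈ Ioo 0 T, HasDerivWithinAt (fun d => Y x (x + d)) (-a x (x + d)) (Ioo 0 T) d := by
    intro d hd
    have h := H.dY2 x (x + d) (by
      rw [show x + d - x = d by ring, abs_of_pos hd.1]; exact hd.1) (by
      rw [show x + d - x = d by ring, abs_of_pos hd.1]; exact hd.2)
    exact (h.comp_const_add x d).hasDerivWithinAt
  have hinj : InjOn (fun d => Y x (x + d)) (Ioo 0 T) := by
    intro d hd e he h
    have := (anti H x).injOn (x₁ := x + d) (x₂ := x + e) ⟨by linarith [hd.1], by linarith [hd.2]⟩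
      ⟨by linarith [he.1], by linarith [he.2]⟩ h
    linarith
  have him : (fun d => Y x (x + d)) '' Ioo 0 T = univ := by
    rw [eq_univ_iff_forall]
    intro u
    obtain ⟨z, hz, h⟩ := surj H x u
    refine ⟨z - x, ⟨by linarith [hz.1], by linarith [hz.2]⟩, ?_⟩
    simp only [add_sub_cancel]
    exact h
  have := lintegral_image_eq_lintegral_abs_deriv_mul measurableSet_Ioo hder hinj
    (fun u => f (x, X T Y x u))
  rw [him, Measure.restrict_univ] at this
  rw [this]
  refine setLIntegral_congr_fun measurableSet_Ioo fun d hd => ?_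
  have hx : x + d ∈ Ioo x (x + T) := ⟨by linarith [hd.1], by linarith [hd.2]⟩
  rw [X_eq H hx rfl, abs_neg, abs_of_pos]
  exact H.apos x (x + d) (by rw [show x + d - x = d by ring, abs_of_pos hd.1]; exact hd.1) (by
      rw [show x + d - x = d by ring, abs_of_pos hd.1]; exact hd.2)

theorem inner2 (H : HopfData T Y a P) (f : ℝ × ℝ → ℝ≥0∞) (x : ℝ) :
    ∫⁻ d in Ioo 0 T, ENNReal.ofReal (a x (x - d)) * f (F T Y (x - d, x)) =
      ∫⁻ u, f (x, X T Y x u) := by
  have hab : ∀ d ∈ Ioo 0 T, |x - d - x| = d := by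
    intro d hd
    rw [show x - d - x = -d by ring, abs_neg, abs_of_pos hd.1]
  have hder : ∀ d ∈ Ioo 0 T, HasDerivWithinAt (fun d => -Y x (x - d)) (-a x (x - d))
      (Ioo 0 T) d := by
    intro d hd
    have h := H.dY2 x (x - d) (by rw [hab d hd]; exact hd.1) (by rw [hab d hd]; exact hd.2)
    have h2 := (h.comp_const_sub x d).neg
    simp only [neg_neg] at h2
    exact h2.hasDerivWithinAt
  have hsh : ∀ d, Y x (x - d) = Y x (x + (T - d)) := by
    intro d
    rw [← H.perY2 x (x - d)]
    congr 1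
    ring
  have hinj : InjOn (fun d => -Y x (x - d)) (Ioo 0 T) := by
    intro d hd e he h
    simp only [neg_inj] at h
    rw [hsh, hsh] at h
    have := (anti H x).injOn (x₁ := x + (T - d)) (x₂ := x + (T - e))
      ⟨by linarith [hd.2], by linarith [hd.1]⟩ ⟨by linarith [he.2], by linarith [he.1]⟩ h
    linarith
  have him : (fun d => -Y x (x - d)) '' Ioo 0 T = univ := by
    rw [eq_univ_iff_forall]
    intro u
    obtain ⟨z, hz, h⟩ := surj H x (-u)
    refine ⟨T - (z - x), ⟨by linarith [hz.2], by linarith [hz.1]⟩, ?_⟩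
    simp only
    rw [hsh, show x + (T - (T - (z - x))) = z by ring, h, neg_neg]
  have := lintegral_image_eq_lintegral_abs_deriv_mul measurableSet_Ioo hder hinj
    (fun u => f (x, X T Y x u))
  rw [him, Measure.restrict_univ] at this
  rw [this]
  refine setLIntegral_congr_fun measurableSet_Ioo fun d hd => ?_
  simp only [F]
  rw [abs_neg, abs_of_pos]
  exact H.apos x (x - d) (by rw [hab d hd]; exact hd.1) (by rw [hab d hd]; exact hd.2)

/-- transformation of the area under the phase map -/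
theorem lint_inv (H : HopfData T Y a P) (f : ℝ × ℝ → ℝ≥0∞) (hf : Measurable f)
    (hper : ∀ x x', f (x + T, x' + T) = f (x, x')) :
    ∫⁻ q, ENNReal.ofReal (a (q.1 + q.2) q.1) * f (F T Y (q.1, q.1 + q.2)) ∂(om T) =
      ∫⁻ q, ENNReal.ofReal (a q.1 (q.1 + q.2)) * f (q.1, q.1 + q.2) ∂(om T) := by
  have ma : Measurable (fun p : ℝ × ℝ => ENNReal.ofReal (a p.1 p.2)) := H.measa.ennreal_ofReal
  have ma' : Measurable (fun p : ℝ × ℝ => ENNReal.ofReal (a p.2 p.1)) :=
    ma.comp (measurable_snd.prodMk measurable_fst)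
  have h1 := lint_swap H.Tpos (fun p => ENNReal.ofReal (a p.2 p.1) * f (F T Y p))
    (ma'.mul (hf.comp (measurable_F H))) (by
      intro x x'
      simp only
      rw [F_per H, H.pera1, H.pera2, hper])
  simp only at h1
  rw [h1]
  unfold om
  have m1 : Measurable (fun q : ℝ × ℝ => ENNReal.ofReal (a q.1 (q.1 - q.2)) *
      f (F T Y (q.1 - q.2, q.1))) :=
    (ma.comp (measurable_fst.prodMk (measurable_fst.sub measurable_snd))).mul
      ((hf.comp (measurable_F H)).comp ((measurable_fst.sub measurable_snd).prodMk measurable_fst))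
  have m2 : Measurable (fun q : ℝ × ℝ => ENNReal.ofReal (a q.1 (q.1 + q.2)) *
      f (q.1, q.1 + q.2)) :=
    (ma.comp (measurable_fst.prodMk (measurable_fst.add measurable_snd))).mul
      (hf.comp (measurable_fst.prodMk (measurable_fst.add measurable_snd)))
  rw [lintegral_prod _ m1.aemeasurable, lintegral_prod _ m2.aemeasurable]
  refine lintegral_congr fun x => ?_
  rw [inner1 H f x, inner2 H f x]

end Pool.Agent.TH645.PG
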