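import Pool.Agent.TH645.PG.Map

/-!
The inequality along one orbit of a leaf.
-/

set_option autoImplicit false

namespace Pool.Agent.TH645.PG

open Real Filter Topology MeasureTheory Set
open Pool.Agent.TH229.PG

variable {T : ℝ} {Y a P : ℝ → ℝ → ℝ}

theorem dq1 (H : HopfData T Y a P) {x x' : ℝ} (h0 : 0 < |x' - x|) (h1 : |x' - x| < T) :
    Tendsto (fun q : ℝ × ℝ => (Y q.1 q.2 - Y x q.2) / (q.1 - x)) (𝓝[>] x ×ˢ 𝓝 x')
      (𝓝 (P x x')) := by
  rw [Metric.tendsto_nhds]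
  intro ε hε
  have e1 : ∀ᶠ p : ℝ × ℝ in 𝓝 (x, x'), dist (P p.1 p.2) (P x x') < ε :=
    (Metric.tendsto_nhds.1 (H.contP x x' h0 h1)) ε hε
  have hc : Continuous (fun p : ℝ × ℝ => |p.2 - p.1|) := by fun_prop
  have e2 : ∀ᶠ p : ℝ × ℝ in 𝓝 (x, x'), 0 < |p.2 - p.1| :=
    hc.continuousAt.eventually (lt_mem_nhds h0)
  have e3 : ∀ᶠ p : ℝ × ℝ in 𝓝 (x, x'), |p.2 - p.1| < T :=
    hc.continuousAt.eventually (gt_mem_nhds h1)
  obtain ⟨r, hr, hball⟩ := Metric.eventually_nhds_iff.1 (e1.and (e2.and e3))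
  have f1 : ∀ᶠ z in 𝓝[>] x, x < z ∧ z < x + r := by
    have : Ioo x (x + r) ∈ 𝓝[>] x := Ioo_mem_nhdsGT (by linarith)
    filter_upwards [this] with z hz using hz
  have f2 : ∀ᶠ z in 𝓝 x', |z - x'| < r := by
    have := Metric.ball_mem_nhds x' hr
    filter_upwards [this] with z hz
    simpa [Real.dist_eq] using hz
  filter_upwards [f1.prod_mk f2] with q hq
  obtain ⟨⟨hq1, hq2⟩, hq3⟩ := hq
  have hin : ∀ θ ∈ Icc x q.1, dist ((θ, q.2) : ℝ × ℝ) (x, x') < r := by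
    intro θ hθ
    rw [Prod.dist_eq, max_lt_iff]
    constructor
    · rw [Real.dist_eq, abs_of_nonneg (by linarith [hθ.1])]; linarith [hθ.2]
    · rw [Real.dist_eq]; exact hq3
  have hder : ∀ θ ∈ Icc x q.1, HasDerivAt (fun z => Y z q.2) (P θ q.2) θ := by
    intro θ hθ
    have := hball (hin θ hθ)
    exact H.dY1 θ q.2 this.2.1 this.2.2
  obtain ⟨θ, hθ, he⟩ := exists_hasDerivAt_eq_slope (fun z => Y z q.2) (fun z => P z q.2) hq1
    (fun θ hθ => (hder θ hθ).continuousAt.continuousWithinAt)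
    (fun θ hθ => hder θ (Ioo_subset_Icc_self hθ))
  rw [← he]
  exact (hball (hin θ (Ioo_subset_Icc_self hθ))).1

theorem dq2 (H : HopfData T Y a P) {x x' : ℝ} (h0 : 0 < |x' - x|) (h1 : |x' - x| < T) :
    Tendsto (fun z => -((Y x z - Y x x') / (z - x'))) (𝓝[≠] x') (𝓝 (a x x')) := by
  have h := (hasDerivAt_iff_tendsto_slope.1 (H.dY2 x x' h0 h1)).neg
  rw [neg_neg] at h
  refine h.congr fun z => ?_
  rw [slope_def_field]

theorem amgm {A B C : ℝ} (hA : 0 ≤ A) (hB : 0 ≤ B) (hC : C = A * B) :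
    2 * Real.sqrt C ≤ A + B := by
  have : Real.sqrt C ≤ (A + B) / 2 := by
    rw [Real.sqrt_le_left (by positivity), hC]
    nlinarith [sq_nonneg (A - B)]
  linarith

/-- algebra of the comparison of two orbits -/
theorem alg (M : ℕ) (u ξ η p r s t : ℕ → ℝ) (hξ : ∀ n, 0 < ξ n)
    (h1 : ∀ n, p n * ξ n - η n = s n * ξ (n + 1))
    (h2 : ∀ n, r n * ξ (n + 1) + η (n + 1) = t n * ξ n)
    (hs : ∀ n < M + 2, 0 ≤ s n) (ht : ∀ n < M + 2, 0 ≤ t n) (hu : ∀ n, 0 ≤ u n)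
    (h0 : u 0 = 0) (hM : u (M + 2) = 0) :
    2 * ∑ n ∈ Finset.range (M + 2), Real.sqrt (s n * t n * (u n * u (n + 1))) ≤
      ∑ n ∈ Finset.range (M + 2), (p n * u n + r n * u (n + 1)) := by
  have hdec : ∀ n, p n * u n + r n * u (n + 1) =
      (s n * (ξ (n + 1) / ξ n) * u n + t n * (ξ n / ξ (n + 1)) * u (n + 1)) +
      (η n / ξ n * u n - η (n + 1) / ξ (n + 1) * u (n + 1)) := by
    intro n
    have e1 : p n = s n * (ξ (n + 1) / ξ n) + η n / ξ n := by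
      have := hξ n
      field_simp
      linarith [h1 n]
    have e2 : r n = t n * (ξ n / ξ (n + 1)) - η (n + 1) / ξ (n + 1) := by
      have := hξ (n + 1)
      field_simp
      linarith [h2 n]
    rw [e1, e2]
    ring
  have htel : ∑ n ∈ Finset.range (M + 2),
      (η n / ξ n * u n - η (n + 1) / ξ (n + 1) * u (n + 1)) = 0 := by
    rw [Finset.sum_range_sub' (fun n => η n / ξ n * u n), h0, hM]
    ring
  simp only [hdec]
  rw [Finset.sum_add_distrib, htel, add_zero, Finset.mul_sum]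
  refine Finset.sum_le_sum fun n hn => ?_
  have hn' := Finset.mem_range.1 hn
  have a1 := hξ n
  have a2 := hξ (n + 1)
  have a3 := hs n hn'
  have a4 := ht n hn'
  have a5 := hu n
  have a6 := hu (n + 1)
  refine amgm (by positivity) (by positivity) ?_
  field_simp

theorem Leaf.iter_mono {τ : ℝ → ℝ} (h : Leaf T τ) (n : ℕ) : StrictMono (τ^[n]) :=
  h.mono.iterate n

theorem gap {τ : ℝ → ℝ} (h : Leaf T τ) (n : ℕ) (x : ℝ) :
    0 < τ^[n + 1] x - τ^[n] x ∧ τ^[n + 1] x - τ^[n] x < T := by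
  rw [Function.iterate_succ_apply']
  constructor
  · linarith [h.above (τ^[n] x)]
  · linarith [h.below (τ^[n] x)]

/-- inequality along one orbit -/
theorem leaf_ineq (H : HopfData T Y a P) {τ : ℝ → ℝ} (hl : Leaf T τ)
    (hi : ∀ u, Y (τ u) (τ (τ u)) = - Y (τ u) u) (x : ℝ) (M : ℕ) (u : ℕ → ℝ)
    (hu : ∀ n, 0 ≤ u n) (h0 : u 0 = 0) (hM : u (M + 2) = 0) :
    2 * ∑ n ∈ Finset.range (M + 2), Real.sqrt (a (τ^[n] x) (τ^[n + 1] x) *
        a (τ^[n + 1] x) (τ^[n] x) * (u n * u (n + 1))) ≤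
      ∑ n ∈ Finset.range (M + 2), (P (τ^[n] x) (τ^[n + 1] x) * u n +
        P (τ^[n + 1] x) (τ^[n] x) * u (n + 1)) := by
  have g1 : ∀ n, 0 < |τ^[n + 1] x - τ^[n] x| := fun n => by
    rw [abs_of_pos (gap hl n x).1]; exact (gap hl n x).1
  have g2 : ∀ n, |τ^[n + 1] x - τ^[n] x| < T := fun n => by
    rw [abs_of_pos (gap hl n x).1]; exact (gap hl n x).2
  have g1' : ∀ n, 0 < |τ^[n] x - τ^[n + 1] x| := fun n => by rw [abs_sub_comm]; exact g1 n
  have g2' : ∀ n, |τ^[n] x - τ^[n + 1] x| < T := fun n => by rw [abs_sub_comm]; exact g2 n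
  have hT : ∀ n, Tendsto (fun z => τ^[n] z) (𝓝[>] x) (𝓝 (τ^[n] x)) := fun n =>
    ((hl.cont.iterate n).tendsto x).mono_left nhdsWithin_le_nhds
  have hTg : ∀ n, Tendsto (fun z => τ^[n] z) (𝓝[>] x) (𝓝[>] (τ^[n] x)) := by
    intro n
    refine tendsto_nhdsWithin_iff.mpr ⟨hT n, ?_⟩
    filter_upwards [self_mem_nhdsWithin] with z hz
    exact hl.mono.iterate n hz
  have hT' : ∀ n, Tendsto (fun z => τ^[n] z) (𝓝[>] x) (𝓝[≠] (τ^[n] x)) := by
    intro n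
    refine tendsto_nhdsWithin_iff.mpr ⟨hT n, ?_⟩
    filter_upwards [self_mem_nhdsWithin] with z hz
    exact (hl.mono.iterate n hz).ne'
  -- difference quotients
  have tp : ∀ n, Tendsto (fun z => (Y (τ^[n] z) (τ^[n + 1] z) - Y (τ^[n] x) (τ^[n + 1] z)) /
      (τ^[n] z - τ^[n] x)) (𝓝[>] x) (𝓝 (P (τ^[n] x) (τ^[n + 1] x))) := fun n =>
    (dq1 H (g1 n) (g2 n)).comp ((hTg n).prodMk (hT (n + 1)))
  have tr : ∀ n, Tendsto (fun z => (Y (τ^[n + 1] z) (τ^[n] z) - Y (τ^[n + 1] x) (τ^[n] z)) /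
      (τ^[n + 1] z - τ^[n + 1] x)) (𝓝[>] x) (𝓝 (P (τ^[n + 1] x) (τ^[n] x))) := fun n =>
    (dq1 H (g1' n) (g2' n)).comp ((hTg (n + 1)).prodMk (hT n))
  have ts : ∀ n, Tendsto (fun z => -((Y (τ^[n] x) (τ^[n + 1] z) - Y (τ^[n] x) (τ^[n + 1] x)) /
      (τ^[n + 1] z - τ^[n + 1] x))) (𝓝[>] x) (𝓝 (a (τ^[n] x) (τ^[n + 1] x))) := fun n =>
    (dq2 H (g1 n) (g2 n)).comp (hT' (n + 1))
  have tt : ∀ n, Tendsto (fun z => -((Y (τ^[n + 1] x) (τ^[n] z) - Y (τ^[n + 1] x) (τ^[n] x)) /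
      (τ^[n] z - τ^[n] x))) (𝓝[>] x) (𝓝 (a (τ^[n + 1] x) (τ^[n] x))) := fun n =>
    (dq2 H (g1' n) (g2' n)).comp (hT' n)
  have hspos : ∀ᶠ z in 𝓝[>] x, ∀ n ∈ Finset.range (M + 2),
      0 < -((Y (τ^[n] x) (τ^[n + 1] z) - Y (τ^[n] x) (τ^[n + 1] x)) /
      (τ^[n + 1] z - τ^[n + 1] x)) := by
    rw [Filter.eventually_all_finset]
    intro n _
    exact (ts n).eventually (lt_mem_nhds (H.apos _ _ (g1 n) (g2 n)))
  have htpos : ∀ᶠ z in 𝓝[>] x, ∀ n ∈ Finset.range (M + 2),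
      0 < -((Y (τ^[n + 1] x) (τ^[n] z) - Y (τ^[n + 1] x) (τ^[n] x)) /
      (τ^[n] z - τ^[n] x)) := by
    rw [Filter.eventually_all_finset]
    intro n _
    exact (tt n).eventually (lt_mem_nhds (H.apos _ _ (g1' n) (g2' n)))
  refine le_of_tendsto_of_tendsto (b := 𝓝[>] x)
    (f := fun z => 2 * ∑ n ∈ Finset.range (M + 2), Real.sqrt (
      -((Y (τ^[n] x) (τ^[n + 1] z) - Y (τ^[n] x) (τ^[n + 1] x)) / (τ^[n + 1] z - τ^[n + 1] x)) *
      -((Y (τ^[n + 1] x) (τ^[n] z) - Y (τ^[n + 1] x) (τ^[n] x)) / (τ^[n] z - τ^[n] x)) *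
      (u n * u (n + 1))))
    (g := fun z => ∑ n ∈ Finset.range (M + 2),
      ((Y (τ^[n] z) (τ^[n + 1] z) - Y (τ^[n] x) (τ^[n + 1] z)) / (τ^[n] z - τ^[n] x) * u n +
      (Y (τ^[n + 1] z) (τ^[n] z) - Y (τ^[n + 1] x) (τ^[n] z)) /
        (τ^[n + 1] z - τ^[n + 1] x) * u (n + 1))) ?_ ?_ ?_
  · refine Tendsto.const_mul 2 (tendsto_finsetSum _ fun n _ => ?_)
    exact (((ts n).mul (tt n)).mul_const _).sqrt
  · refine tendsto_finsetSum _ fun n _ => ?_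
    exact ((tp n).mul_const _).add ((tr n).mul_const _)
  · filter_upwards [self_mem_nhdsWithin, hspos, htpos] with z hz hs ht
    have hξ : ∀ n, 0 < τ^[n] z - τ^[n] x := fun n => sub_pos.mpr (hl.mono.iterate n hz)
    refine alg M u (fun n => τ^[n] z - τ^[n] x)
      (fun n => Y (τ^[n] z) (τ^[n + 1] z) - Y (τ^[n] x) (τ^[n + 1] x)) _ _ _ _ hξ ?_ ?_ ?_ ?_
      hu h0 hM
    · intro n
      rw [div_mul_cancel₀ _ (hξ n).ne', neg_mul, div_mul_cancel₀ _ (hξ (n + 1)).ne']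
      ring
    · intro n
      rw [div_mul_cancel₀ _ (hξ (n + 1)).ne', neg_mul, div_mul_cancel₀ _ (hξ n).ne']
      have e1 : ∀ w, Y (τ^[n + 1] w) (τ^[n + 1 + 1] w) = - Y (τ^[n + 1] w) (τ^[n] w) := by
        intro w
        rw [Function.iterate_succ_apply' τ (n + 1), Function.iterate_succ_apply' τ n]
        exact hi _
      rw [e1, e1]
      ring
    · intro n hn
      exact (hs n (Finset.mem_range.2 hn)).le
    · intro n hn
      exact (ht n (Finset.mem_range.2 hn)).le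

/-- density of the transformed area along the orbit -/
noncomputable def rh (a : ℝ → ℝ → ℝ) (τ : ℝ → ℝ) (x : ℝ) (n : ℕ) : ℝ :=
  ∏ k ∈ Finset.range n, a (τ^[k + 1] x) (τ^[k] x) / a (τ^[k] x) (τ^[k + 1] x)

theorem orbit_ineq (H : HopfData T Y a P) {τ : ℝ → ℝ} (hl : Leaf T τ)
    (hi : ∀ u, Y (τ u) (τ (τ u)) = - Y (τ u) u) (x : ℝ) (M : ℕ) (φ : ℕ → ℝ)
    (hφ : ∀ n, 0 ≤ φ n) :
    2 * ∑ n ∈ Finset.range M, rh a τ x (n + 1) * (a (τ^[n + 2] x) (τ^[n + 1] x) *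
        (φ (n + 1) * φ (n + 2))) ≤
      ∑ n ∈ Finset.range (M + 1), rh a τ x (n + 1) * (P (τ^[n + 1] x) (τ^[n + 2] x) *
        φ (n + 1) ^ 2) +
      ∑ n ∈ Finset.range (M + 1), rh a τ x (n + 1) * (P (τ^[n + 1] x) (τ^[n] x) *
        φ (n + 1) ^ 2) := by
  have g1 : ∀ n, 0 < |τ^[n + 1] x - τ^[n] x| := fun n => by
    rw [abs_of_pos (gap hl n x).1]; exact (gap hl n x).1
  have g2 : ∀ n, |τ^[n + 1] x - τ^[n] x| < T := fun n => by
    rw [abs_of_pos (gap hl n x).1]; exact (gap hl n x).2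
  have g1' : ∀ n, 0 < |τ^[n] x - τ^[n + 1] x| := fun n => by rw [abs_sub_comm]; exact g1 n
  have g2' : ∀ n, |τ^[n] x - τ^[n + 1] x| < T := fun n => by rw [abs_sub_comm]; exact g2 n
  have pa : ∀ n, 0 < a (τ^[n] x) (τ^[n + 1] x) := fun n => H.apos _ _ (g1 n) (g2 n)
  have pb : ∀ n, 0 < a (τ^[n + 1] x) (τ^[n] x) := fun n => H.apos _ _ (g1' n) (g2' n)
  have prh : ∀ n, 0 < rh a τ x n := fun n =>
    Finset.prod_pos fun k _ => div_pos (pb k) (pa k)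
  set u : ℕ → ℝ := fun n => if n = 0 ∨ n = M + 2 then 0 else rh a τ x n * φ n ^ 2 with hud
  have hu : ∀ n, 0 ≤ u n := by
    intro n
    simp only [hud]
    split_ifs
    · exact le_refl _
    · exact mul_nonneg (prh n).le (sq_nonneg _)
  have h0 : u 0 = 0 := by simp [hud]
  have hM : u (M + 2) = 0 := by simp [hud]
  have hun : ∀ n, n < M + 1 → u (n + 1) = rh a τ x (n + 1) * φ (n + 1) ^ 2 := by
    intro n hn
    have : ¬ (n + 1 = 0 ∨ n + 1 = M + 2) := by omega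
    simp only [hud, if_neg this]
  have key := leaf_ineq H hl hi x M u hu h0 hM
  rw [Finset.sum_add_distrib] at key
  have s1 : ∑ n ∈ Finset.range (M + 2), P (τ^[n] x) (τ^[n + 1] x) * u n =
      ∑ n ∈ Finset.range (M + 1), rh a τ x (n + 1) * (P (τ^[n + 1] x) (τ^[n + 2] x) *
        φ (n + 1) ^ 2) := by
    rw [Finset.sum_range_succ', h0, mul_zero, add_zero]
    refine Finset.sum_congr rfl fun n hn => ?_
    rw [hun n (Finset.mem_range.1 hn)]
    ring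
  have s2 : ∑ n ∈ Finset.range (M + 2), P (τ^[n + 1] x) (τ^[n] x) * u (n + 1) =
      ∑ n ∈ Finset.range (M + 1), rh a τ x (n + 1) * (P (τ^[n + 1] x) (τ^[n] x) *
        φ (n + 1) ^ 2) := by
    rw [Finset.sum_range_succ, hM, mul_zero, add_zero]
    refine Finset.sum_congr rfl fun n hn => ?_
    rw [hun n (Finset.mem_range.1 hn)]
    ring
  have s3 : ∑ n ∈ Finset.range (M + 2), Real.sqrt (a (τ^[n] x) (τ^[n + 1] x) *
        a (τ^[n + 1] x) (τ^[n] x) * (u n * u (n + 1))) =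
      ∑ n ∈ Finset.range M, rh a τ x (n + 1) * (a (τ^[n + 2] x) (τ^[n + 1] x) *
        (φ (n + 1) * φ (n + 2))) := by
    rw [Finset.sum_range_succ, Finset.sum_range_succ', h0, hM]
    simp only [zero_mul, mul_zero, Real.sqrt_zero, add_zero]
    refine Finset.sum_congr rfl fun n hn => ?_
    have hn' := Finset.mem_range.1 hn
    rw [hun n (by omega), hun (n + 1) (by omega)]
    have er : rh a τ x (n + 1 + 1) = rh a τ x (n + 1) *
        (a (τ^[n + 1 + 1] x) (τ^[n + 1] x) / a (τ^[n + 1] x) (τ^[n + 1 + 1] x)) :=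
      Finset.prod_range_succ _ _
    rw [er]
    have p1 := pa (n + 1)
    have p2 := pb (n + 1)
    have p3 := prh (n + 1)
    have p4 := hφ (n + 1)
    have p5 := hφ (n + 2)
    have e : a (τ^[n + 1] x) (τ^[n + 1 + 1] x) * a (τ^[n + 1 + 1] x) (τ^[n + 1] x) *
        (rh a τ x (n + 1) * φ (n + 1) ^ 2 * (rh a τ x (n + 1) *
        (a (τ^[n + 1 + 1] x) (τ^[n + 1] x) / a (τ^[n + 1] x) (τ^[n + 1 + 1] x)) *
          φ (n + 1 + 1) ^ 2)) =
        (rh a τ x (n + 1) * (a (τ^[n + 2] x) (τ^[n + 1] x) * (φ (n + 1) * φ (n + 2)))) ^ 2 := by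
      field_simp
    rw [e, Real.sqrt_sq (by positivity)]
  rw [s1, s2, s3] at key
  exact key

/-- transfer operator -/
noncomputable def L (T : ℝ) (Y a : ℝ → ℝ → ℝ) (ψ : ℝ × ℝ → ℝ) (p : ℝ × ℝ) : ℝ :=
  a p.2 p.1 / a p.1 p.2 * ψ (F T Y p)

theorem L_iter (H : HopfData T Y a P) {τ : ℝ → ℝ} (hl : Leaf T τ)
    (hi : ∀ u, Y (τ u) (τ (τ u)) = - Y (τ u) u) (ψ : ℝ × ℝ → ℝ) (n : ℕ) :
    ∀ x, (L T Y a)^[n] ψ (x, τ x) = rh a τ x n * ψ (τ^[n] x, τ^[n + 1] x) := by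
  induction n with
  | zero =>
    intro x
    simp [rh]
  | succ n ih =>
    intro x
    rw [Function.iterate_succ_apply']
    unfold L
    simp only
    rw [F_leaf H hl hi]
    have := ih (τ x)
    unfold L at this
    rw [this]
    unfold rh
    rw [Finset.prod_range_succ']
    simp only [Function.iterate_succ_apply, Function.iterate_zero, id_eq]
    ring

/-- the pointwise inequality -/
theorem point_ineq (H : HopfData T Y a P) (Φ : ℝ × ℝ → ℝ) (hΦ : ∀ p, 0 ≤ Φ p) (M : ℕ)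
    {x x' : ℝ} (hx : x < x') (hx' : x' < x + T) :
    2 * ∑ n ∈ Finset.range M, (L T Y a)^[n + 1]
        (fun p => a p.2 p.1 * (Φ p * Φ (F T Y p))) (x, x') ≤
      ∑ n ∈ Finset.range (M + 1), (L T Y a)^[n + 1] (fun p => P p.1 p.2 * Φ p ^ 2) (x, x') +
      ∑ n ∈ Finset.range (M + 1), (L T Y a)^[n]
        (fun p => a p.2 p.1 / a p.1 p.2 * (P p.2 p.1 * Φ (F T Y p) ^ 2)) (x, x') := by
  obtain ⟨τ, hl, rfl, hi⟩ := H.cov x x' hx hx'
  have key := orbit_ineq H hl hi x M (fun n => Φ (τ^[n] x, τ^[n + 1] x)) (fun n => hΦ _)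
  have hF : ∀ n, F T Y (τ^[n] x, τ^[n + 1] x) = (τ^[n + 1] x, τ^[n + 2] x) := by
    intro n
    rw [Function.iterate_succ_apply' τ (n + 1), Function.iterate_succ_apply' τ n]
    exact F_leaf H hl hi _
  simp only [L_iter H hl hi, hF]
  refine key.trans (add_le_add (le_refl _) (le_of_eq ?_))
  refine Finset.sum_congr rfl fun n _ => ?_
  have er : rh a τ x (n + 1) = rh a τ x n *
      (a (τ^[n + 1] x) (τ^[n] x) / a (τ^[n] x) (τ^[n + 1] x)) :=
    Finset.prod_range_succ _ _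
  rw [er]
  ring

end Pool.Agent.TH645.PG
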